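import Pool.Agent.H250R3.Berg.Stmts

/-!
# H250-BERG, task Sign
-/

set_option autoImplicit false

open Polynomial MeasureTheory

namespace Pool.Agent.H962R4.Berg

open Pool.Agent.H250R3.Berg

/-- Multiplicities under a composition with a polynomial of nonzero derivative. -/
lemma rm_comp (h g : ℝ[X]) (t : ℝ) (hh : h ≠ 0) (hg : (derivative g).eval t ≠ 0) :
    (h.comp g).rootMultiplicity t = h.rootMultiplicity (g.eval t) := by
  obtain ⟨h1, e1, n1⟩ :=
    Polynomial.exists_eq_pow_rootMultiplicity_mul_and_not_dvd h hh (g.eval t)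
  set a := g.eval t with ha
  set m := h.rootMultiplicity a with hm
  have hd : (X - C t) ∣ (g - C a) := by
    rw [dvd_iff_isRoot]
    simp [IsRoot, ha]
  obtain ⟨g1, e2⟩ := hd
  have hg1 : g1.eval t = (derivative g).eval t := by
    have h0 : derivative (g - C a) = derivative ((X - C t) * g1) := by rw [e2]
    have h1' := congrArg (fun p => p.eval t) h0
    simpa using h1'.symm
  have e3 : h.comp g = (X - C t) ^ m * (g1 ^ m * h1.comp g) := by
    calc h.comp g = (((X - C a) ^ m) * h1).comp g := by rw [← e1]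
      _ = (g - C a) ^ m * h1.comp g := by
          rw [mul_comp, pow_comp]
          simp
      _ = _ := by rw [e2, mul_pow]; ring
  have hq : (g1 ^ m * h1.comp g).eval t ≠ 0 := by
    rw [eval_mul, eval_pow, eval_comp, ← ha]
    refine mul_ne_zero (pow_ne_zero _ (by rw [hg1]; exact hg)) ?_
    intro h0
    exact n1 (dvd_iff_isRoot.mpr h0)
  have hq0 : (g1 ^ m * h1.comp g) ≠ 0 := by
    intro h0
    rw [h0] at hq
    simp at hq
  have hne : (X - C t) ^ m * (g1 ^ m * h1.comp g) ≠ 0 :=
    mul_ne_zero (pow_ne_zero _ (X_sub_C_ne_zero t)) hq0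
  rw [e3, rootMultiplicity_mul hne, rootMultiplicity_X_sub_C_pow,
    rootMultiplicity_eq_zero (p := g1 ^ m * h1.comp g) hq, add_zero]

/-- A nonzero polynomial which is nonnegative on `(0,1)` has a positive integral. -/
lemma integral_pos' (Q : ℝ[X]) (hQ : Q ≠ 0) (hpos : ∀ x : ℝ, 0 < x → x < 1 → 0 ≤ Q.eval x) :
    0 < ∫ x in (0 : ℝ)..1, Q.eval x := by
  have hcl : Set.Icc (0 : ℝ) 1 ⊆ {x | 0 ≤ Q.eval x} := by
    have hc : IsClosed {x : ℝ | 0 ≤ Q.eval x} := isClosed_le continuous_const Q.continuous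
    rw [← closure_Ioo (zero_ne_one' ℝ)]
    exact closure_minimal (fun x hx => hpos x hx.1 hx.2) hc
  have hex : ∃ c ∈ Set.Icc (0 : ℝ) 1, 0 < Q.eval c := by
    by_contra hno
    push Not at hno
    apply hQ
    apply Polynomial.eq_zero_of_infinite_isRoot
    apply (Set.Icc_infinite (zero_lt_one' ℝ)).mono
    intro x hx
    exact le_antisymm (hno x hx) (hcl hx)
  exact intervalIntegral.integral_pos zero_lt_one Q.continuous.continuousOn
    (fun x hx => hcl ⟨hx.1.le, hx.2⟩) hex

/-- A nonzero polynomial of constant sign on `(0,1)` has a nonzero integral. -/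
lemma integral_ne' (Q : ℝ[X]) (hQ : Q ≠ 0)
    (hs : (∀ x : ℝ, 0 < x → x < 1 → 0 ≤ Q.eval x) ∨ (∀ x : ℝ, 0 < x → x < 1 → Q.eval x ≤ 0)) :
    ∫ x in (0 : ℝ)..1, Q.eval x ≠ 0 := by
  rcases hs with hs | hs
  · exact (integral_pos' Q hQ hs).ne'
  · have h := integral_pos' (-Q) (neg_ne_zero.mpr hQ)
      (fun x hx hx' => by rw [eval_neg]; linarith [hs x hx hx'])
    intro h0
    have : ∫ x in (0 : ℝ)..1, (-Q).eval x = - ∫ x in (0 : ℝ)..1, Q.eval x := by
      rw [← intervalIntegral.integral_neg]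
      simp
    rw [this, h0] at h
    simp at h

/-- Interpolation. -/
lemma interp (r : ℕ) (S : Finset ℝ) (hS : S.card = r) (f : ℕ → ℝ → ℝ) :
    ∃ c : ℕ → ℝ, (∃ m < r + 1, c m ≠ 0) ∧
      ∀ x ∈ S, ∑ m ∈ Finset.range (r + 1), c m * f m x = 0 := by
  let L : (Fin (r + 1) → ℝ) →ₗ[ℝ] (S → ℝ) :=
    { toFun := fun c x => ∑ m : Fin (r + 1), c m * f m x
      map_add' := by
        intro c d
        funext x
        simp [add_mul, Finset.sum_add_distrib]
      map_smul' := by
        intro a c
        funext x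
        simp [Finset.mul_sum, mul_assoc] }
  have hlt : Module.finrank ℝ (S → ℝ) < Module.finrank ℝ (Fin (r + 1) → ℝ) := by
    simp [hS]
  have hker := LinearMap.ker_ne_bot_of_finrank_lt (f := L) hlt
  obtain ⟨c, hc, hc0⟩ := (Submodule.ne_bot_iff _).mp hker
  rw [LinearMap.mem_ker] at hc
  refine ⟨fun m => if hm : m < r + 1 then c ⟨m, hm⟩ else 0, ?_, ?_⟩
  · by_contra hno
    push Not at hno
    apply hc0
    funext i
    have := hno i.1 i.2
    simpa [i.2] using this
  · intro x hx
    have h1 := congrFun hc ⟨x, hx⟩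
    rw [Finset.sum_range]
    have h2 : ∀ i : Fin (r + 1), (i : ℕ) ≤ r := fun i => Nat.lt_succ_iff.mp i.2
    simpa [L, h2] using h1

theorem taskSign : TaskSign := by
  intro hEven hCheb N ζ hA k hk j h hh hO
  by_contra hlt
  push Not at hlt
  set S := oddRoots h with hSdef
  set r := S.card with hr
  have hN : N ≠ 0 := by
    rcases hA with ⟨h1, _⟩ | ⟨h1, _⟩ <;> omega
  have hSmem : ∀ x, x ∈ S ↔ (0 < x ∧ x < 1) ∧ Odd (h.rootMultiplicity x) := by
    intro x
    rw [hSdef, oddRoots, Finset.mem_filter, Multiset.mem_toFinset]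
    constructor
    · exact fun hx => hx.2
    · intro hx
      refine ⟨?_, hx⟩
      rw [mem_roots hh, ← rootMultiplicity_pos hh]
      exact hx.2.pos
  obtain ⟨c, hc, hcS⟩ := interp r S rfl
    (fun m x => (U ζ 0 (N * m + k + 1)).eval (1 - x ^ (1 / (N : ℝ))))
  obtain ⟨hF, hnu⟩ := hCheb N ζ hA k hk (r + 1) c hc
  set F := comb N k ζ (r + 1) c with hFdef
  have hFev : ∀ y, F.eval y =
      ∑ m ∈ Finset.range (r + 1), c m * (U ζ 0 (N * m + k + 1)).eval y := by
    intro y
    rw [hFdef, comb, eval_finsetSum]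
    simp
  -- the root function
  have hroot : ∀ x ∈ S, (0 < x ^ (1 / (N : ℝ)) ∧ x ^ (1 / (N : ℝ)) < 1) ∧
      (x ^ (1 / (N : ℝ))) ^ N = x := by
    intro x hx
    have hx1 := ((hSmem x).mp hx).1
    refine ⟨⟨Real.rpow_pos_of_pos hx1.1 _, ?_⟩, ?_⟩
    · apply Real.rpow_lt_one hx1.1.le hx1.2
      positivity
    · rw [one_div]
      exact Real.rpow_inv_natCast_pow hx1.1.le hN
  set T : Finset ℝ := S.image (fun x => 1 - x ^ (1 / (N : ℝ))) with hT
  have hTcard : T.card = r := by
    rw [hT, Finset.card_image_of_injOn]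
    intro x hx y hy hxy
    have e : x ^ (1 / (N : ℝ)) = y ^ (1 / (N : ℝ)) := by
      simp only at hxy
      linarith
    rw [← (hroot x hx).2, ← (hroot y hy).2, e]
  set M := F.roots.filter (fun x => 0 < x ∧ x < 1) with hM
  have hTM : T.val ≤ M := by
    rw [Multiset.le_iff_subset T.nodup]
    intro y hy
    have hy' : y ∈ T := hy
    rw [hT, Finset.mem_image] at hy'
    obtain ⟨x, hx, rfl⟩ := hy'
    rw [hM, Multiset.mem_filter, mem_roots hF]
    have h1 := (hroot x hx).1
    refine ⟨?_, by linarith [h1.2], by linarith [h1.1]⟩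
    rw [IsRoot, hFev]
    exact hcS x hx
  have hMT : T.val = M := by
    apply Multiset.eq_of_le_of_card_le hTM
    have h1 : Multiset.card T.val = r := hTcard
    rw [h1]
    have h2 : Multiset.card M = nu F := rfl
    omega
  have hFm : ∀ y : ℝ, 0 < y → y < 1 → F.rootMultiplicity y = if y ∈ T then 1 else 0 := by
    intro y hy hy'
    rw [← count_roots]
    have h1 : F.roots.count y = M.count y := by
      rw [hM, Multiset.count_filter_of_pos ⟨hy, hy'⟩]
    rw [h1, ← hMT]
    by_cases hyT : y ∈ T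
    · rw [if_pos hyT]
      exact Multiset.count_eq_one_of_mem T.nodup hyT
    · rw [if_neg hyT]
      exact Multiset.count_eq_zero_of_notMem hyT
  set P : ℝ[X] := h.comp (X ^ N) * F.comp (1 - X) with hP
  have hc1 : h.comp (X ^ N) ≠ 0 := by
    intro h0
    have h2 := comp_eq_zero_iff.mp h0
    rcases h2 with h2 | h2
    · exact hh h2
    · have h3 := congrArg natDegree h2.2
      rw [natDegree_X_pow, natDegree_C] at h3
      exact hN h3
  have hc2 : F.comp (1 - X) ≠ 0 := by
    intro h0
    have h2 := comp_eq_zero_iff.mp h0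
    rcases h2 with h2 | h2
    · exact hF h2
    · have h3 := congrArg derivative h2.2
      simp at h3
  have hP0 : P ≠ 0 := mul_ne_zero hc1 hc2
  have hPe : ∀ t : ℝ, 0 < t → t < 1 → Even (P.rootMultiplicity t) := by
    intro t ht ht1
    have hPn : h.comp (X ^ N) * F.comp (1 - X) ≠ 0 := hP0
    rw [hP, rootMultiplicity_mul hPn, rm_comp h (X ^ N) t hh, rm_comp F (1 - X) t hF]
    · rw [eval_pow, eval_X, eval_sub, eval_one, eval_X,
        hFm (1 - t) (by linarith) (by linarith)]
      have htN : 0 < t ^ N ∧ t ^ N < 1 := ⟨pow_pos ht N, pow_lt_one₀ ht.le ht1 hN⟩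
      have hiff : (1 - t ∈ T) ↔ t ^ N ∈ S := by
        rw [hT, Finset.mem_image]
        constructor
        · rintro ⟨x, hx, e⟩
          have e' : x ^ (1 / (N : ℝ)) = t := by linarith
          rw [← e', (hroot x hx).2]
          exact hx
        · intro hx
          refine ⟨t ^ N, hx, ?_⟩
          have e' : (t ^ N) ^ (1 / (N : ℝ)) = t := by
            rw [one_div]
            exact Real.pow_rpow_inv_natCast ht.le hN
          rw [e']
      by_cases hx : t ^ N ∈ S
      · rw [if_pos (hiff.mpr hx)]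
        exact ((hSmem _).mp hx).2.add_one
      · rw [if_neg (fun h0 => hx (hiff.mp h0)), add_zero]
        by_contra hodd
        rw [Nat.not_even_iff_odd] at hodd
        exact hx ((hSmem _).mpr ⟨htN, hodd⟩)
    · simp
    · rw [derivative_X_pow]
      simp only [eval_mul, eval_C, eval_pow, eval_X]
      have : (N : ℝ) ≠ 0 := by exact_mod_cast hN
      positivity
  have hsgn := hEven P hP0 hPe
  set Q : ℝ[X] := X ^ k * P with hQ
  have hQ0 : Q ≠ 0 := mul_ne_zero (pow_ne_zero _ X_ne_zero) hP0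
  have hQs : (∀ x : ℝ, 0 < x → x < 1 → 0 ≤ Q.eval x) ∨
      (∀ x : ℝ, 0 < x → x < 1 → Q.eval x ≤ 0) := by
    rcases hsgn with hs | hs
    · left
      intro x hx hx1
      rw [hQ, eval_mul, eval_pow, eval_X]
      exact mul_nonneg (pow_nonneg hx.le k) (hs x hx hx1)
    · right
      intro x hx hx1
      rw [hQ, eval_mul, eval_pow, eval_X]
      exact mul_nonpos_of_nonneg_of_nonpos (pow_nonneg hx.le k) (hs x hx hx1)
  apply integral_ne' Q hQ0 hQs
  have hQev : ∀ t : ℝ, Q.eval t = ∑ m ∈ Finset.range (r + 1),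
      c m * (t ^ k * h.eval (t ^ N) * (U ζ 0 (N * m + k + 1)).eval (1 - t)) := by
    intro t
    rw [hQ, hP]
    simp only [eval_mul, eval_pow, eval_X, eval_comp, eval_sub, eval_one]
    rw [hFev, Finset.mul_sum, Finset.mul_sum]
    refine Finset.sum_congr rfl fun m _ => ?_
    ring
  simp_rw [hQev]
  rw [intervalIntegral.integral_finsetSum]
  · apply Finset.sum_eq_zero
    intro m hm
    rw [Finset.mem_range] at hm
    rw [intervalIntegral.integral_const_mul, hO m (by omega), mul_zero]
  · intro m _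
    apply Continuous.intervalIntegrable
    fun_prop

end Pool.Agent.H962R4.Berg
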